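import Mathlib
import Pool.Agent.Helper71.CruxMain

set_option autoImplicit false
set_option linter.unusedSectionVars false

namespace Pool.Agent.Results.MP_e1d64d_co.CruxHamiltonianSets

open SimpleGraph

/-- The average degree `2 e(G) / |V(G)|` of a finite graph. -/
noncomputable def avgDeg {V : Type*} (G : SimpleGraph V) : ℝ :=
  2 * (G.edgeSet.ncard : ℝ) / (Nat.card V : ℝ)

/-- The crux `c_α(G)`: the least number of vertices of a subgraph `H` of `G` (with at least one
vertex) whose average degree is at least `α d(G)`. -/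
noncomputable def crux {V : Type*} (α : ℝ) (G : SimpleGraph V) : ℕ :=
  sInf {m : ℕ | ∃ H : G.Subgraph, H.verts.Nonempty ∧ α * avgDeg G ≤ avgDeg H.coe ∧
    H.verts.ncard = m}

/-- `U` is a Hamiltonian set of `G`: the induced subgraph `G[U]` contains a cycle through all
vertices of `U`. -/
def IsHamiltonianSet {V : Type*} (G : SimpleGraph V) (U : Set V) : Prop :=
  ∃ (a : U) (p : (G.induce U).Walk a a), p.IsCycle ∧ ∀ v : U, v ∈ p.support

/-- `h(G)`, the number of Hamiltonian sets of `G`. -/
noncomputable def hamNum {V : Type*} (G : SimpleGraph V) : ℕ :=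
  {U : Set V | IsHamiltonianSet G U}.ncard

section aux

open Pool.Agent.Helper71

variable {V : Type*} [Fintype V] [DecidableEq V] (G : SimpleGraph V)

lemma edges_induce (F : Finset V) :
    ((⊤ : G.Subgraph).induce (F : Set V)).coe.edgeSet.ncard =
      {e ∈ G.edgeSet | ∀ v ∈ e, v ∈ F}.ncard := by
  have h := Subgraph.image_coe_edgeSet_coe ((⊤ : G.Subgraph).induce (F : Set V))
  have hinj : Function.Injective
      (Sym2.map (Subtype.val : ((⊤ : G.Subgraph).induce (F : Set V)).verts → V)) :=
    Sym2.map.injective Subtype.val_injective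
  rw [← Set.ncard_image_of_injective _ hinj, h]
  congr 1
  ext e
  induction e using Sym2.ind with
  | _ x y =>
    simp only [Subgraph.mem_edgeSet, Subgraph.induce_adj, Subgraph.top_adj, Finset.mem_coe,
      Set.mem_ofPred_eq, mem_edgeSet, Sym2.mem_iff, forall_eq_or_imp, forall_eq]
    tauto

lemma avgDeg_eq : avgDeg G = (Crux.adjp G Finset.univ : ℝ) / Fintype.card V := by
  unfold avgDeg
  rw [Nat.card_eq_fintype_card]
  congr 1
  have h := Crux.two_mul_ncard G Finset.univ
  have h2 : {e ∈ G.edgeSet | ∀ v ∈ e, v ∈ (Finset.univ : Finset V)} = G.edgeSet := by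
    ext e; simp
  rw [h2] at h
  exact_mod_cast h

lemma avgDeg_induce (F : Finset V) :
    avgDeg ((⊤ : G.Subgraph).induce (F : Set V)).coe = (Crux.adjp G F : ℝ) / F.card := by
  unfold avgDeg
  rw [edges_induce]
  have h := Crux.two_mul_ncard G F
  have hc : Nat.card ((⊤ : G.Subgraph).induce (F : Set V)).verts = F.card := by
    rw [Subgraph.induce_verts, Nat.card_eq_fintype_card]
    simp
  rw [hc]
  congr 1
  exact_mod_cast h

lemma crux_le (F : Finset V) (hF : F.Nonempty) (hd : avgDeg G / 5 * F.card ≤ Crux.adjp G F) :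
    crux (1 / 5) G ≤ F.card := by
  apply Nat.sInf_le
  refine ⟨(⊤ : G.Subgraph).induce (F : Set V), ?_, ?_, ?_⟩
  · simpa using hF
  · rw [avgDeg_induce, le_div_iff₀ (by exact_mod_cast hF.card_pos)]
    calc 1 / 5 * avgDeg G * (F.card : ℝ) = avgDeg G / 5 * F.card := by ring
      _ ≤ _ := hd
  · simp [Subgraph.induce_verts]

lemma card_cyc_le : (Crux.cyc G Finset.univ).card ≤ hamNum G := by
  unfold hamNum
  have hsub : ((fun U : Finset V => (U : Set V)) '' (Crux.cyc G Finset.univ : Set (Finset V))) ⊆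
      {U : Set V | IsHamiltonianSet G U} := by
    rintro _ ⟨U, hU, rfl⟩
    rw [Finset.mem_coe, Crux.mem_cyc] at hU
    obtain ⟨-, u, p, hp, hs⟩ := hU
    have hw : ∀ x ∈ p.support, x ∈ (U : Set V) := by
      intro x hx
      rw [Finset.mem_coe, ← hs, List.mem_toFinset]; exact hx
    refine ⟨⟨u, hw _ p.start_mem_support⟩, p.induce (U : Set V) hw, ?_, ?_⟩
    · rw [← Walk.isCycle_map_iff_of_injective
        (f := (Embedding.induce (G := G) (U : Set V)).toHom)
        (Embedding.induce (G := G) (U : Set V)).injective, Walk.map_induce]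
      exact hp
    · rintro ⟨v, hv⟩
      rw [Walk.support_induce]
      rw [Finset.mem_coe, ← hs, List.mem_toFinset] at hv
      simpa using hv
  have h1 := Set.ncard_le_ncard hsub (Set.toFinite _)
  rwa [Set.ncard_image_of_injective _ Finset.coe_injective, Set.ncard_coe_finset] at h1

end aux

/-- Every finite graph `G` on `n` vertices with `d(G) ≥ 5 * 10 ^ 25` has at least
`5 n d(G) 2 ^ (t / 1280000)` Hamiltonian sets, where `t` is the crux `c_{1/5}(G)`. -/
theorem result {V : Type*} [Finite V] (G : SimpleGraph V) (hd : 5 * 10 ^ 25 ≤ avgDeg G) :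
    (Nat.card V : ℝ) * (5 * avgDeg G) * (2 : ℝ) ^ ((crux (1 / 5) G : ℝ) / 1280000) ≤ hamNum G := by
  classical
  have := Fintype.ofFinite V
  set n : ℝ := (Fintype.card V : ℝ) with hn
  have hd' := hd
  rw [avgDeg_eq] at hd'
  have hnpos : 0 < n := by
    have hn0 : (0 : ℝ) ≤ n := Nat.cast_nonneg (Fintype.card V)
    rcases hn0.eq_or_lt with h | h
    · rw [← hn, ← h, div_zero] at hd'
      norm_num at hd'
    · exact h
  set d : ℝ := avgDeg G with hdd
  have hd0 : 0 < d := lt_of_lt_of_le (by norm_num) hd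
  have hdn : d * n = Pool.Agent.Helper71.Crux.adjp G Finset.univ := by
    rw [hdd, avgDeg_eq, ← hn]; field_simp
  have hcard : ((Finset.univ : Finset V).card : ℝ) = n := by rw [Finset.card_univ]
  have huniv : (Finset.univ : Finset V).Nonempty := by
    rw [← Finset.card_pos]
    have : (0 : ℝ) < (Finset.univ : Finset V).card := by rw [hcard]; exact hnpos
    exact_mod_cast this
  have key := Pool.Agent.Helper71.Crux.main_ind G (d / 5) (crux (1 / 5) G) (by linarith)
    (fun F hF hFd => crux_le G F hF hFd)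
    _ Finset.univ rfl huniv (by rw [hcard, ← hdn]; exact le_of_eq (by ring))
  have hle : ((Pool.Agent.Helper71.Crux.cyc G Finset.univ).card : ℝ) ≤ hamNum G := by
    exact_mod_cast card_cyc_le G
  refine le_trans ?_ (key.trans hle)
  rw [hcard, ← hdn, mul_div_assoc, div_self hnpos.ne', mul_one, Nat.card_eq_fintype_card, ← hn]
  have h1 : d * n * (d / (d / 5)) = n * (5 * d) := by
    field_simp
  rw [h1]
  have h2 : (2 : ℝ) ^ ((crux (1 / 5) G : ℝ) / 1280000) ≤
      Real.exp ((crux (1 / 5) G : ℝ) / 1843200) := by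
    rw [Real.rpow_def_of_pos (by norm_num)]
    apply Real.exp_le_exp.2
    have h3 : Real.log 2 ≤ 0.6931471808 := Real.log_two_lt_d9.le
    have h4 : (0 : ℝ) ≤ (crux (1 / 5) G : ℝ) := Nat.cast_nonneg _
    nlinarith
  exact mul_le_mul_of_nonneg_left h2 (by positivity)

end Pool.Agent.Results.MP_e1d64d_co.CruxHamiltonianSets
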